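import Mathlib
import Pool.Agent.Run7.h179.CP.D

/-!
# Finite `p`-groups of class two all of whose automorphisms are class-preserving

Let `G` be a finite `p`-group of nilpotency class exactly two. Then `Aut(G) = Aut_c(G)` if and
only if every automorphism of `G` induces the identity on `G/Z(G)`, `Z(G) = γ₂(G)`, and every `x`
outside the Frattini subgroup is conjugate to `x z` for all those `z ∈ Z(G)` for which the powers of
`z` have in `Z(G)` at least the heights which the corresponding powers of `x` have in `G/Z(G)`.
-/

set_option autoImplicit false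

namespace Pool.Agent.Results.MP_0b48ca_al.AllClassPreserving

open Subgroup

/-- the heights of the powers of `z` in `Z(G)` are at least those of the powers of `x` in
`G/Z(G)` -/
def HeightsLE (p : ℕ) (G : Type) [Group G] (x z : G) : Prop :=
  ∀ i h : ℕ, (∃ y : G, ∃ c ∈ center G, x ^ p ^ i = y ^ p ^ h * c) →
    ∃ w ∈ center G, z ^ p ^ i = w ^ p ^ h

/-- **Characterisation of the finite `p`-groups of class two with `Aut(G) = Aut_c(G)`**, in terms of
the action of `Aut(G)` on `G/Z(G)`, the commutators and the power structure. -/
theorem result (p : ℕ) [Fact p.Prime] (G : Type) [Group G] [Finite G] (hG : IsPGroup p G)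
    (hne : commutator G ≠ ⊥) (hcl : commutator G ≤ center G) :
    (∀ (α : MulAut G) (g : G), IsConj g (α g)) ↔
      (∀ (α : MulAut G) (g : G), g⁻¹ * α g ∈ center G) ∧ center G = commutator G ∧
        ∀ x : G, x ∉ frattini G → ∀ z ∈ center G, (IsConj x (x * z) ↔ HeightsLE p G x z) := by
  refine Iff.trans ?_ (and_congr_right fun _ => Pool.Agent.Run7.h179.CP.main' hG hne hcl)
  constructor
  · intro h
    exact ⟨fun α g => Pool.Agent.Run7.h179.CP.central_of_conj hcl (h α) g, fun α _ => h α⟩
  · rintro ⟨h1, h2⟩ α
    exact h2 α (h1 α)

end Pool.Agent.Results.MP_0b48ca_al.AllClassPreserving
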